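import Mathlib.Analysis.Matrix.HermitianFunctionalCalculus
import Mathlib.Analysis.Matrix.Order
import Mathlib.Analysis.SpecialFunctions.ContinuousFunctionalCalculus.Abs
import Mathlib.Analysis.SpecialFunctions.ContinuousFunctionalCalculus.Rpow.Basic
import Mathlib.Analysis.InnerProductSpace.Positive
import Mathlib.Tactic

/-! Decreasing eigenvalue lists of Hermitian matrices and powers of absolute values. -/

open Matrix Finset
open scoped MatrixOrder ComplexOrder

namespace Pool.Agent.Q161.Eig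

variable {n : ℕ}

/-- The eigenvalues of a Hermitian matrix in decreasing order. -/
noncomputable def ev {X : Matrix (Fin n) (Fin n) ℂ} (hX : X.IsHermitian) : Fin n → ℝ :=
  (Matrix.isSymmetric_toEuclideanLin_iff.mpr hX).eigenvalues finrank_euclideanSpace_fin

lemma ev_antitone {X : Matrix (Fin n) (Fin n) ℂ} (hX : X.IsHermitian) : Antitone (ev hX) :=
  LinearMap.IsSymmetric.eigenvalues_antitone ..

/-- `|X|^p`, with `|X| = (X* X)^{1/2}`. -/
noncomputable def absPow (X : Matrix (Fin n) (Fin n) ℂ) (p : ℝ) : Matrix (Fin n) (Fin n) ℂ :=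
  CFC.rpow (CFC.abs X) p

lemma absPow_eq {X P : Matrix (Fin n) (Fin n) ℂ} (hP : P.PosSemidef) (h : P * P = Xᴴ * X) (k : ℕ) :
    absPow X k = P ^ k := by
  have h1 : CFC.abs X = P := CFC.sqrt_unique h (Matrix.nonneg_iff_posSemidef.2 hP)
  rw [absPow, h1, CFC.rpow_eq_pow, CFC.rpow_natCast P k (Matrix.nonneg_iff_posSemidef.2 hP)]

lemma exists_eigenbasis {X : Matrix (Fin n) (Fin n) ℂ} (hX : X.IsHermitian) :
    ∃ b : OrthonormalBasis (Fin n) ℂ (EuclideanSpace ℂ (Fin n)),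
      ∀ i, Matrix.toEuclideanLin X (b i) = ((ev hX i : ℝ) : ℂ) • b i :=
  ⟨(Matrix.isSymmetric_toEuclideanLin_iff.mpr hX).eigenvectorBasis finrank_euclideanSpace_fin,
    fun i => (Matrix.isSymmetric_toEuclideanLin_iff.mpr hX).apply_eigenvectorBasis _ i⟩

/-- An upper bound of the quadratic form bounds the eigenvalues. -/
lemma ev_le {X : Matrix (Fin n) (Fin n) ℂ} (hX : X.IsHermitian) {c : ℝ}
    (h : ∀ v : EuclideanSpace ℂ (Fin n),
      (inner ℂ v (Matrix.toEuclideanLin X v)).re ≤ c * ‖v‖ ^ 2) (i : Fin n) : ev hX i ≤ c := by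
  obtain ⟨b, hb⟩ := exists_eigenbasis hX
  have := h (b i)
  rw [hb i, inner_smul_right, inner_self_eq_norm_sq_to_K, b.norm_eq_one] at this
  simpa using this

/-- A bound of the eigenvalues bounds the quadratic form. -/
lemma form_le {X : Matrix (Fin n) (Fin n) ℂ} (hX : X.IsHermitian) {c : ℝ}
    (h : ∀ i, ev hX i ≤ c) (v : EuclideanSpace ℂ (Fin n)) :
    (inner ℂ v (Matrix.toEuclideanLin X v)).re ≤ c * ‖v‖ ^ 2 := by
  obtain ⟨b, hb⟩ := exists_eigenbasis hX
  have hs := Matrix.isSymmetric_toEuclideanLin_iff.mpr hX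
  have e1 : inner ℂ v (Matrix.toEuclideanLin X v)
      = ((∑ i, ev hX i * ‖inner ℂ (b i) v‖ ^ 2 : ℝ) : ℂ) := by
    rw [← b.sum_inner_mul_inner]
    push_cast
    refine Finset.sum_congr rfl fun i _ => ?_
    rw [← hs (b i) v, hb i, inner_smul_left, Complex.conj_ofReal]
    have : inner ℂ v (b i) * inner ℂ (b i) v = ((‖inner ℂ (b i) v‖ ^ 2 : ℝ) : ℂ) := by
      rw [← inner_conj_symm v (b i), ← Complex.normSq_eq_conj_mul_self, Complex.normSq_eq_norm_sq]
    push_cast at this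
    rw [← this]
    ring
  have e2 : ‖v‖ ^ 2 = ∑ i, ‖inner ℂ (b i) v‖ ^ 2 := (b.sum_sq_norm_inner_right v).symm
  rw [e1, e2, Complex.ofReal_re, Finset.mul_sum]
  exact Finset.sum_le_sum fun i _ => mul_le_mul_of_nonneg_right (h i) (by positivity)

/-- `λ(X)` majorizes `λ(Y)`. -/
def Majorizes {X Y : Matrix (Fin n) (Fin n) ℂ} (hX : X.IsHermitian) (hY : Y.IsHermitian) : Prop :=
  (∀ k : ℕ, ∑ i with i.val < k, ev hY i ≤ ∑ i with i.val < k, ev hX i) ∧
    ∑ i, ev hX i = ∑ i, ev hY i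

end Pool.Agent.Q161.Eig
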